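import Pool.Agent.Helper74.HG.GoalsC

/-!
# HG-NRM (packet of helper74, MP_aa7fc1_ag): norms
-/

namespace Pool.Agent.Helper15.HG.NRM

open MvPolynomial Pool.Agent.Helper74.HG

/-- The linear substitution given by a matrix. -/
noncomputable def sub {G σ k : Type} [Fintype G] [CommRing k] (A : Matrix G G k) (p : G × σ) :
    MvPolynomial (G × σ) k :=
  ∑ υ, C (A p.1 υ) * X (υ, p.2)

lemma sub_comp {G σ : Type} [Fintype G] [DecidableEq G] (A B : Matrix G G ℂ) (h : B * A = 1)
    (p : G × σ) : aeval (sub (σ := σ) A) (sub (σ := σ) B p) = X p := by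
  obtain ⟨τ, x⟩ := p
  have h1 : aeval (sub (σ := σ) A) (sub (σ := σ) B (τ, x)) =
      ∑ ω, C ((B * A) τ ω) * X (ω, x) := by
    simp only [sub, map_sum, map_mul, aeval_X, algHom_C, algebraMap_eq, Finset.mul_sum,
      Matrix.mul_apply, Finset.sum_mul]
    rw [Finset.sum_comm]
    refine Finset.sum_congr rfl fun ω _ => Finset.sum_congr rfl fun υ _ => ?_
    ring
  rw [h1, h]
  simp [Matrix.one_apply]

/-- The linear automorphism given by an invertible matrix. -/
noncomputable def lin {G σ : Type} [Fintype G] [DecidableEq G] (A B : Matrix G G ℂ)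
    (h : B * A = 1) (h' : A * B = 1) :
    MvPolynomial (G × σ) ℂ ≃ₐ[ℂ] MvPolynomial (G × σ) ℂ :=
  AlgEquiv.ofAlgHom (aeval (sub A)) (aeval (sub B))
    (by
      ext p : 1
      simpa using sub_comp A B h p)
    (by
      ext p : 1
      simpa using sub_comp B A h' p)

theorem main {k E σ : Type} [Field k] [CharZero k] [Field E] [Algebra k E]
    [Algebra.IsAlgebraic k E] [IsAlgClosed E] (f₀ : MvPolynomial σ E) :
    ∃ (ι : Type) (_ : Fintype ι) (_ : DecidableEq ι) (_ : Nonempty ι) (ρ : ι → (E ≃ₐ[k] E))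
      (A : Matrix ι ι E) (F : MvPolynomial (ι × σ) k), A.det ≠ 0 ∧
      map (algebraMap k E) F =
        ∏ i, bind₁ (fun x => sub A (i, x)) (map (ρ i : E →+* E) f₀) := by
  classical
  let L : IntermediateField k E := IntermediateField.adjoin k (f₀.coeffs : Set E)
  have hL : FiniteDimensional k L :=
    IntermediateField.finiteDimensional_adjoin
      (fun x _ => (Algebra.IsAlgebraic.isAlgebraic x).isIntegral)
  have : IsAlgClosure k E := ⟨inferInstance, inferInstance⟩
  have : Normal k E := IsAlgClosure.normal k E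
  have : IsGalois k E := {}
  let K : IntermediateField k E := IntermediateField.normalClosure k L E
  have : FiniteDimensional k K := inferInstance
  have : Normal k K := inferInstance
  have : IsGalois k K := {}
  have hLK : L ≤ K := IntermediateField.le_normalClosure L
  have hco : (f₀.coeffs : Set E) ⊆ Set.range (algebraMap K E) := by
    intro c hc
    have : c ∈ L := IntermediateField.subset_adjoin _ _ hc
    exact ⟨⟨c, hLK this⟩, rfl⟩
  obtain ⟨f₁, hf₁⟩ := mem_range_map_iff_coeffs_subset.2 hco
  let G := K ≃ₐ[k] K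
  have : Fintype G := Fintype.ofFinite _
  have hcard : Fintype.card G = Module.finrank k K := by
    rw [← Nat.card_eq_fintype_card]
    exact IsGalois.card_aut_eq_finrank k K
  let e : Module.Basis G k K := (Module.finBasis k K).reindex (Fintype.equivOfCardEq (by simp [hcard]))
  let A : Matrix G G E := Matrix.of fun τ υ => algebraMap K E (τ (e υ))
  let ρ : G → (E ≃ₐ[k] E) := fun τ => τ.liftNormal E
  have hρ : ∀ τ : G, map (ρ τ : E →+* E) f₀ = map (algebraMap K E) (map (τ : K →+* K) f₁) := by
    intro τ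
    have h : (ρ τ : E →+* E).comp (algebraMap K E) = (algebraMap K E).comp (τ : K →+* K) :=
      RingHom.ext fun x => AlgEquiv.liftNormal_commutes τ E x
    rw [← hf₁, map_map, map_map, h]
  have hdet : A.det ≠ 0 := by
    intro h0
    obtain ⟨v, hv, h⟩ := Matrix.exists_vecMul_eq_zero_iff.2 h0
    have hli := linearIndependent_monoidHom K E
    have h1 : ∀ x : K, ∑ τ : G, v τ * algebraMap K E (τ x) = 0 := by
      intro x
      have h2 : ∀ υ, ∑ τ : G, v τ * algebraMap K E (τ (e υ)) = 0 := fun υ => by
        simpa [Matrix.vecMul, dotProduct, A] using congrFun h υ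
      rw [← e.sum_repr x]
      simp only [map_sum, Finset.mul_sum]
      rw [Finset.sum_comm]
      refine Finset.sum_eq_zero fun υ _ => ?_
      have : ∀ τ : G, v τ * algebraMap K E (τ ((e.repr x) υ • e υ)) =
          algebraMap k E ((e.repr x) υ) * (v τ * algebraMap K E (τ (e υ))) := fun τ => by
        rw [Algebra.smul_def, map_mul, AlgEquiv.commutes, map_mul,
          ← IsScalarTower.algebraMap_apply k K E]
        ring
      simp only [this, ← Finset.mul_sum, h2, mul_zero]
    have hinj : Function.Injective (fun τ : G =>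
        (((algebraMap K E).comp (τ : K →+* K) : K →+* E) : K →* E)) := by
      intro τ τ' hh
      ext x
      have := DFunLike.congr_fun hh x
      exact congrArg Subtype.val ((algebraMap K E).injective this)
    have h3 := hli.comp _ hinj
    rw [Fintype.linearIndependent_iff] at h3
    apply hv
    ext τ
    refine h3 v ?_ τ
    ext x
    simpa using h1 x
  have key : ∀ (g : E ≃ₐ[k] E), map (g : E →+* E)
      (∏ i : G, bind₁ (fun x => sub A (i, x)) (map (ρ i : E →+* E) f₀)) =
      ∏ i : G, bind₁ (fun x => sub A (i, x)) (map (ρ i : E →+* E) f₀) := by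
    intro g
    let g' : G := g.restrictNormal K
    have hg' : ∀ x : K, g (algebraMap K E x) = algebraMap K E (g' x) := fun x =>
      (AlgEquiv.restrictNormal_commutes g K x).symm
    rw [map_prod]
    refine Fintype.prod_equiv (Equiv.mulLeft g') _ _ fun τ => ?_
    rw [map_bind₁, hρ, map_map]
    congr 1
    · congr 1
      ext1 x
      simp only [sub, map_sum, map_mul, map_C, map_X, Equiv.coe_mulLeft]
      refine Finset.sum_congr rfl fun υ _ => ?_
      congr 2
      exact hg' _
    · have h : ((g : E →+* E).comp (algebraMap K E)).comp (τ : K →+* K) =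
          (algebraMap K E).comp ((g' * τ : G) : K →+* K) := RingHom.ext fun x => hg' (τ x)
      rw [Equiv.coe_mulLeft, hρ, map_map, map_map, h]
  have hr : ((∏ i : G, bind₁ (fun x => sub A (i, x)) (map (ρ i : E →+* E) f₀)).coeffs : Set E) ⊆
      Set.range (algebraMap k E) := by
    intro c hc
    rw [InfiniteGalois.mem_range_algebraMap_iff_fixed]
    intro g
    obtain ⟨m, _, rfl⟩ := (mem_coeffs_iff).1 hc
    have := congrArg (coeff m) (key g)
    rw [coeff_map] at this
    exact this
  obtain ⟨F, hF⟩ := mem_range_map_iff_coeffs_subset.2 hr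
  exact ⟨G, inferInstance, inferInstance, ⟨1⟩, ρ, A, F, hdet, hF⟩

lemma clear {σ : Type} (F : MvPolynomial σ ℚ) : ∃ (D : ℤ) (F' : MvPolynomial σ ℤ), D ≠ 0 ∧
    map (Int.castRingHom ℚ) F' = C (D : ℚ) * F := by
  classical
  obtain ⟨b, hb⟩ := IsLocalization.exist_integer_multiples_of_finset (nonZeroDivisors ℤ) F.coeffs
  have hr : ((C ((b : ℤ) : ℚ) * F).coeffs : Set ℚ) ⊆ Set.range (Int.castRingHom ℚ) := by
    intro c hc
    obtain ⟨m, hm, rfl⟩ := (mem_coeffs_iff).1 hc
    rw [coeff_C_mul]
    have hm' : coeff m F ≠ 0 := fun h0 => by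
      rw [mem_support_iff, coeff_C_mul, h0, mul_zero] at hm
      exact hm rfl
    obtain ⟨z, hz⟩ := hb (coeff m F) (coeff_mem_coeffs m hm')
    refine ⟨z, ?_⟩
    simpa [Algebra.smul_def] using hz
  obtain ⟨F', hF'⟩ := mem_range_map_iff_coeffs_subset.2 hr
  exact ⟨b, F', nonZeroDivisors.ne_zero b.2, hF'⟩

theorem alg : Algebra.IsAlgebraic ℚ Qc := by
  have h := algebraicClosure.isAlgebraic ℚ ℂ
  have e : (IntermediateField.algebra' (algebraicClosure ℚ ℂ) : Algebra ℚ (algebraicClosure ℚ ℂ)) =
    DivisionRing.toRatAlgebra := Subsingleton.elim _ _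
  rw [e] at h
  exact h

theorem t : Pool.Agent.Helper74.HG.NRM := by
  intro σ _ f₀
  have := alg
  have h := algebraicClosure.isAlgClosure ℚ ℂ
  have : IsAlgClosed Qc := h.1
  obtain ⟨ι, h1, h2, h3, ρ, A, F, hA, hF⟩ := main (k := ℚ) f₀
  obtain ⟨D, F', hD, hF'⟩ := clear F
  have hA' : IsUnit (A.map inQ).det := by
    have e : (A.map inQ).det = inQ A.det := (RingHom.map_det inQ A).symm
    rw [e, isUnit_iff_ne_zero]
    exact fun h0 => hA (inQ.injective (h0.trans (map_zero _).symm))
  refine ⟨ι, h1, h3, ρ, F', (D : ℂ), lin (A.map inQ) (A.map inQ)⁻¹ (Matrix.nonsing_inv_mul _ hA')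
    (Matrix.mul_nonsing_inv _ hA'), by exact_mod_cast hD, ?_, ?_⟩
  · intro i
    simp [lin, sub]
  · have e1 : toC F' = map (algebraMap ℚ ℂ) (map (Int.castRingHom ℚ) F') := by
      rw [map_map, toC]
      congr 1
    have e2 : map (algebraMap ℚ ℂ) F = map inQ (map (algebraMap ℚ Qc) F) := by
      rw [map_map]
      congr 1
    rw [e1, hF', map_mul, map_C, e2, hF, map_prod, map_prod]
    congr 1
    · refine Finset.prod_congr rfl fun i _ => ?_
      have h4 : (fun x => map inQ (sub A (i, x))) = fun x : σ => sub (A.map inQ) (i, x) := by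
        ext1 x
        simp [sub]
      have h5 : ∀ p : MvPolynomial σ ℂ, aeval (sub (A.map inQ)) (rename (fun x => (i, x)) p) =
          bind₁ (fun x : σ => sub (A.map inQ) (i, x)) p := fun p => by
        rw [aeval_rename]
        rfl
      rw [map_bind₁, h4, ← h5]
      rfl

end Pool.Agent.Helper15.HG.NRM
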